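import Pool.Agent.H9.CA.TarQ

/-!
# QJ: the successor step
-/

open Ordinal Order Set
open scoped ZFSet

namespace Pool.Agent.H68.CA

open SF CAA

theorem lim_κ {κ χ θ : Ordinal.{0}} (h : Grd κ χ θ) : IsSuccLimit κ := by
  refine ⟨fun h0 => ?_, isSuccPrelimit_of_succ_lt fun ρ hρ => ?_⟩
  · have h1 := h.inac.unc
    exact absurd (h0 h1.le) (not_le.2 h1)
  · obtain ⟨ρ', h1, h2, -⟩ := h.unbκ ρ hρ
    exact lt_of_le_of_lt (succ_le_of_lt h1) h2

/-- QJ -/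
theorem pf_QJ : T_QC → T_QI → T_DZ → T_QA → T_QJ := by
  intro hQC hQI hDZ hQA D G β hD hG hβ
  have hβ' : β < D.κ := lt_of_le_of_lt (le_succ β) hβ
  obtain ⟨-, -, -, hord, -, -⟩ := hQA D G β hD hG hβ'
  funext x
  apply propext
  rw [hDZ (D.N G β) D.κ (lim_κ hD.grd) hord x]
  exact ⟨fun h => hQC D G β hD hG hβ h, fun h => hQI D G β hD hG hβ h⟩

end Pool.Agent.H68.CA
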