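import Pool.Agent.H68.CA.QJ

/-!
# ZA: the iterated sequence
-/

open Ordinal Order Set
open scoped ZFSet

namespace Pool.Agent.H68.CA

open SF CAA

/-- ZA -/
theorem pf_ZA : T_QJ → F_M2 → F_M7 → T_ZA := by
  intro hQJ hM2 hM7 D G hD hG β
  induction β using Ordinal.limitRecOn with
  | zero =>
    intro _
    exact It_zero _
  | add_one β ih =>
    intro hβ
    rw [← Order.succ_eq_add_one] at hβ ⊢
    rw [It_succ, ih (lt_of_le_of_lt (le_succ β) hβ)]
    exact hQJ D G β hD hG hβ
  | limit β hl ih =>
    intro hβ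
    rw [It_limit _ hl]
    funext x
    apply propext
    constructor
    · intro h
      refine hM7 D G β hD hG hβ hl x fun α hα => ?_
      have h1 := h α hα
      rw [ih α hα (hα.trans hβ)] at h1
      exact h1
    · intro h α hα
      rw [ih α hα (hα.trans hβ)]
      have h1 : x ∈ D.N G β := h
      unfold Dat.N at h1
      rw [ZFSet.mem_sep] at h1
      change x ∈ D.N G α
      unfold Dat.N
      rw [ZFSet.mem_sep]
      exact ⟨hM2 D G α β hD hG hα.le hβ h1.1, h1.2⟩

end Pool.Agent.H68.CA
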